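import Pool.Agent.Helper48.LIP.Zvel
import Pool.Agent.Helper91.GR.Nl
import Pool.Agent.Helper91.GR.Win
import Pool.Agent.Helper40.NSK.Gdi
import Pool.Agent.Helper80.MX.Rich
import Pool.Agent.Helper52.SL.Ext

/-! THE DIRECTION OF A LINE IS A FUNCTION OF ONE COORDINATE OF THE BASE: over a label of the window `c` which knows
a form with a large derivative in the direction `z` and a sheet `x_R = f (1, x_y)`, the point and one coordinate
`x_y` of the direction up to level `r` give the direction up to level `r ≤ min (lam - c) (1 - c)`. -/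

set_option autoImplicit false

namespace Pool.Agent.Helper30.RY

open Finset Filter Topology Matrix Pool.Agent.Helper69.RK Pool.Agent.Helper31.EC Pool.Agent.Helper31.EC.Sp
open Pool.Agent.Helper40.EL Pool.Agent.Helper42.NS Pool.Agent.Helper91.GR
open Pool.Agent.Helper95.LF Pool.Agent.Helper3.LF Pool.Agent.Helper89.LX Pool.Agent.Helper48.NS
open Pool.Agent.Helper48.LIP (Hz gami zvel_own zvel_ext)
open Pool.Agent.Helper52.SL (cv cv_dg)

noncomputable section

variable {S : Sp} {m D : ℕ}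

/-- a derivative of size `2 ^ n` in the coordinate direction `z` -/
theorem Hz_of {s : Sys S m} {z : Fin m} {x : ∀ k, FD (S.F k) (Mon (m + 1) D)}
    (h : ∀ η : ℝ, 0 < η → Tendsto (fun k => (x k).l.T.pb (fun ω => ¬ 2 ^ (2 * (1 - η) * (S.F k).n) ≤
      (Pi.single z (1 : ℝ) : Fin m → ℝ) ⬝ᵥ
        (Jf (S.dl 1 k) ((x k).g ω) (ptf s k ((x k).l.p.π ω)) *ᵥ Pi.single z 1))) UF (𝓝 0)) : Hz s z x := by
  intro e he
  refine (h e he).congr fun k => ?_
  congr 1
  funext ω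
  rw [single_dotProduct, Matrix.mulVec_single_one, one_mul]
  have h1 := Jf_apply (S.dl 1 k) ((x k).g ω) (ptf s k ((x k).l.p.π ω)) z z
  have h2 : (Jf (S.dl 1 k) ((x k).g ω) (ptf s k ((x k).l.p.π ω))).col z z =
      gami z.succ (S.dl 1 k) ((x k).g ω) (ptf s k ((x k).l.p.π ω)) := h1
  rw [h2]

/-- the slope of the distance from the sheet along the line -/
theorem slope {s : Sys S m} {c σ : ℝ} (h0 : 0 ≤ c) (h1 : c < 1) (hσ : σ ≤ 1) {l : Lab S} (hl : NlA s c l)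
    {i : Fin m} {J : Finset (Fin (m + 1))} {v : ∀ k, (l k).T.Ω → Cf (m + 1)} (hv : Sht s i J σ l v) :
    ∃ K' : ℕ → ℝ, S.Sub K' ∧ Typ (S := l.sp) (fun k (ω : (l k).T.Ω) =>
      |d1 i J (v k ω) (s.x.v k ((l k).p.π ω))| ≤ K' k * S.dl (σ - c) k) := by
  obtain ⟨hm, K, hK, hs, ht⟩ := hv
  obtain ⟨K', hK', hT⟩ := win_df h0 h1 hl i J v (Eventually.of_forall hm) hK hs 0 le_rfl (fun _ => 1)
    (S.Sub_const zero_le_one)
  refine ⟨fun k => 2 * (K' k * (K k + 1)), (S.Sub_const zero_le_two).mul (hK'.mul (hK.add (S.Sub_const zero_le_one))),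
    ?_⟩
  refine Typ.mono (typ_and hT ht) ?_
  filter_upwards [hK'.1, hK.1] with k k1 k2 ω hω hE
  obtain ⟨e1, e2⟩ := hE
  have hd := S.dl_pos c k
  have hb : K' k * 2 ^ ((0 : ℝ) * (S.F k).n) * (|dfl s i J l v k ω| + S.dl 1 k) ≤
      K' k * (K k + 1) * S.dl σ k := by
    rw [zero_mul, Real.rpow_zero, mul_one, mul_assoc]
    apply mul_le_mul_of_nonneg_left _ k1
    have h2 := S.dl_anti hσ k
    linarith
  have f1 := (e1 (s.t.v k ((l k).p.π ω) 0) (by
    rw [sub_self, abs_zero, one_mul, sub_zero]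
    exact hd.le)).trans hb
  have f2 := (e1 (s.t.v k ((l k).p.π ω) 0 + S.dl c k) (by
    rw [add_sub_cancel_left, one_mul, sub_zero, abs_of_pos hd])).trans hb
  rw [df_lin] at f1 f2
  set Q := d1 i J (v k ω) (s.x.v k ((l k).p.π ω)) with hQ
  have f3 : |S.dl c k * Q| ≤ 2 * (K' k * (K k + 1)) * S.dl σ k := by
    have e3 : S.dl c k * Q = (d0 i J (v k ω) (s.a.v k ((l k).p.π ω)) + (s.t.v k ((l k).p.π ω) 0 + S.dl c k) * Q) -
        (d0 i J (v k ω) (s.a.v k ((l k).p.π ω)) + s.t.v k ((l k).p.π ω) 0 * Q) := by ring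
    rw [e3]
    refine (abs_sub _ _).trans ?_
    linarith
  rw [abs_mul, abs_of_pos hd] at f3
  have f4 : S.dl σ k = S.dl c k * S.dl (σ - c) k := by
    unfold Sp.dl
    rw [← Real.rpow_add (by norm_num)]
    congr 1
    ring
  rw [f4] at f3
  have f5 : S.dl c k * |Q| ≤ S.dl c k * (2 * (K' k * (K k + 1)) * S.dl (σ - c) k) := by
    refine f3.trans (le_of_eq ?_)
    ring
  exact le_of_mul_le_mul_left f5 hd

theorem fin3_cases : ∀ y R z : Fin 3, y ≠ R → y ≠ z → R ≠ z → ∀ j, j = y ∨ j = R ∨ j = z := by decide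

theorem d1_pair (y R : Fin 3) (f : Cf 4) (x : Fin 3 → ℝ) :
    d1 R {0, y.succ} f x = x R - (f.2 0 + f.2 y.succ * x y) := by
  unfold d1
  rw [Finset.sum_pair (Fin.succ_ne_zero y).symm, Fin.cons_zero, Fin.cons_succ, mul_one]

/-- finite estimate -/
theorem fin_est {y R z : Fin 3} (hyR : y ≠ R) (hyz : y ≠ z) (hRz : R ≠ z) {f : Cf 4} {K K' dr dt E2 : ℝ}
    (hK : 0 ≤ K) (hK' : 0 ≤ K') (hf : ∀ j, |f.2 j| ≤ K) (hdt : 0 ≤ dt) (htr : dt ≤ dr) (hE2 : 1 ≤ E2)
    {x x' : Fin 3 → ℝ} (h1 : |d1 R {0, y.succ} f x| ≤ K' * dt) (h2 : |d1 R {0, y.succ} f x'| ≤ K' * dt)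
    (hy : |x y - x' y| ≤ dr) {ds : ℝ} (hds0 : 0 ≤ ds) (hds : ds ≤ dr)
    (hz : (x z - x' z) ^ 2 ≤ E2 ^ 2 * (ds ^ 2 + ∑ j ∈ Finset.univ.erase z, (x j - x' j) ^ 2)) (j : Fin 3) :
    |x j - x' j| ≤ (2 + 2 * K' + K) * (E2 * dr) := by
  have hdr : 0 ≤ dr := hdt.trans htr
  have hR : |x R - x' R| ≤ (2 * K' + K) * dr := by
    rw [d1_pair] at h1 h2
    have e1 : x R - x' R = (x R - (f.2 0 + f.2 y.succ * x y)) - (x' R - (f.2 0 + f.2 y.succ * x' y)) +
        f.2 y.succ * (x y - x' y) := by ring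
    rw [e1]
    refine (abs_add_le _ _).trans ?_
    have e2 := (abs_sub (x R - (f.2 0 + f.2 y.succ * x y)) (x' R - (f.2 0 + f.2 y.succ * x' y)))
    have e3 : |f.2 y.succ * (x y - x' y)| ≤ K * dr := by
      rw [abs_mul]
      exact mul_le_mul (hf _) hy (abs_nonneg _) hK
    have e4 : K' * dt ≤ K' * dr := mul_le_mul_of_nonneg_left htr hK'
    linarith
  have hb0 : 0 ≤ 2 * K' + K := by linarith
  have hEd : dr ≤ E2 * dr := by nlinarith
  have hEd0 : 0 ≤ E2 * dr := by positivity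
  rcases fin3_cases y R z hyR hyz hRz j with h | h | h
  · rw [h]
    have : E2 * dr ≤ (2 + 2 * K' + K) * (E2 * dr) := by nlinarith
    linarith
  · rw [h]
    have e1 : (2 * K' + K) * dr ≤ (2 * K' + K) * (E2 * dr) := mul_le_mul_of_nonneg_left hEd hb0
    nlinarith
  · rw [h]
    have hsub : (Finset.univ.erase z : Finset (Fin 3)) ⊆ {y, R} := by
      intro j hj
      rcases fin3_cases y R z hyR hyz hRz j with h | h | h
      · rw [h]
        exact Finset.mem_insert_self _ _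
      · rw [h]
        exact Finset.mem_insert_of_mem (Finset.mem_singleton_self _)
      · exact absurd h (Finset.ne_of_mem_erase hj)
    have hsum : ∑ j ∈ Finset.univ.erase z, (x j - x' j) ^ 2 ≤ (x y - x' y) ^ 2 + (x R - x' R) ^ 2 := by
      refine (Finset.sum_le_sum_of_subset_of_nonneg hsub fun _ _ _ => sq_nonneg _).trans (le_of_eq ?_)
      rw [Finset.sum_pair hyR]
    have s1 : (x y - x' y) ^ 2 ≤ dr ^ 2 := by
      rw [← sq_abs]
      exact pow_le_pow_left₀ (abs_nonneg _) hy 2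
    have s2 : (x R - x' R) ^ 2 ≤ ((2 * K' + K) * dr) ^ 2 := by
      rw [← sq_abs]
      exact pow_le_pow_left₀ (abs_nonneg _) hR 2
    have s3 : ds ^ 2 ≤ dr ^ 2 := pow_le_pow_left₀ hds0 hds 2
    have s4 : (x z - x' z) ^ 2 ≤ E2 ^ 2 * ((2 + (2 * K' + K) ^ 2) * dr ^ 2) := by
      refine hz.trans (mul_le_mul_of_nonneg_left ?_ (sq_nonneg _))
      rw [mul_pow] at s2
      linarith
    apply abs_le_of_sq_le_sq _ (by positivity)
    refine s4.trans ?_
    have s5 : ((2 + 2 * K' + K) * (E2 * dr)) ^ 2 = E2 ^ 2 * ((2 + (2 * K' + K)) ^ 2 * dr ^ 2) := by ring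
    rw [s5]
    apply mul_le_mul_of_nonneg_left _ (sq_nonneg _)
    apply mul_le_mul_of_nonneg_right _ (sq_nonneg _)
    nlinarith

end

end Pool.Agent.Helper30.RY
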