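import Pool.Agent.Helper30.RY.Ry
import Pool.Agent.Helper91.GR.Vol

/-! ROW B_RY: `RYl s y` for both choices of the slab coordinate. -/

set_option autoImplicit false

namespace Pool.Agent.Helper30.RY

open Finset Filter Topology Matrix Pool.Agent.Helper69.RK Pool.Agent.Helper31.EC Pool.Agent.Helper31.EC.Sp
open Pool.Agent.Helper40.EL Pool.Agent.Helper42.NS Pool.Agent.Helper91.GR Pool.Agent.Helper40.NSK
open Pool.Agent.Helper80.MX (Rich)

noncomputable section

variable {S : Sp} {D : ℕ} {s : Sys S 3}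

/-- ROW B_RY: richness of the coordinate `y`, from a form of full depth in the direction `z` and a slab of `x_R` over
`(t, y)` which is strictly deeper than the window -/
theorem rYl {y R z : Fin 3} (hyR : y ≠ R) (hyz : y ≠ z) (hRz : R ≠ z) {c lam g : ℝ} (h0 : 0 ≤ c) (h1 : c < 1)
    (hcl : c < lam) (hlam : lam ≤ 1) (hg0 : 0 < g) (hg : Rich s g) (hf : HfE s D (Pi.single z 1) c 1)
    (hsl : HH (SJ R {0, y.succ}) s c lam) : RYl s y :=
  ⟨g, min (lam - c) (1 - c), hg0, lt_min (by linarith) (by linarith), ryu hyR hyz hRz h0 h1 hlam hg hf hsl⟩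

end

end Pool.Agent.Helper30.RY
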