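import Pool.Agent.Helper30.RY.Geo

/-! ROW B_RY: RICHNESS OF ONE COORDINATE OF THE BASE. -/

set_option autoImplicit false

namespace Pool.Agent.Helper30.RY

open Finset Filter Topology Matrix Pool.Agent.Helper69.RK Pool.Agent.Helper31.EC Pool.Agent.Helper31.EC.Sp
open Pool.Agent.Helper40.EL Pool.Agent.Helper42.NS Pool.Agent.Helper91.GR Pool.Agent.Helper40.NSK
open Pool.Agent.Helper95.LF Pool.Agent.Helper3.LF Pool.Agent.Helper89.LX Pool.Agent.Helper48.NS
open Pool.Agent.Helper80.MX (Rich)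
open Pool.Agent.Helper48.LIP (Hz gami zvel_own zvel_ext)
open Pool.Agent.Helper52.SL (cv cv_dg)

noncomputable section

variable {S : Sp} {D : ℕ} {s : Sys S 3}

/-- THE DIRECTION IS A FUNCTION OF THE POINT, THE LABEL AND ONE COORDINATE OF THE BASE -/
theorem up1_x_le {y R z : Fin 3} (hyR : y ≠ R) (hyz : y ≠ z) (hRz : R ≠ z) {c lam : ℝ} (h0 : 0 ≤ c) (h1 : c < 1)
    (hlam : lam ≤ 1) {x : ∀ k, FD (S.F k) (Mon (3 + 1) D)} (hx : (gau s D).Ad (cA s c) (cB s) x) (hz : Hz s z x)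
    {l2 : Lab S} {v : ∀ k, (l2 k).T.Ω → Cf 4} (hl2 : DMc s c l2) (hv : Sht s R {0, y.succ} lam l2 v) {r : ℝ}
    (hr : r ≤ lam - c) (hr1 : r ≤ 1 - c) :
    up1 ((lb x).join l2) (s.x.dg r) ≤ up1 ((lb x).join l2) (TR.dg (TR.cor s.x y) r) ⊔
      up1 ((lb x).join l2) (lB s) := by
  obtain ⟨L, hLd⟩ : ∃ L, L = (lb x).join l2 := ⟨_, rfl⟩
  have hL : DMc s c L := by
    rw [hLd]
    exact Lab.DM.join (Gau.Ad.dm (gau s D) hx) hl2
  have hS := Sht_join_right (l := lb x) hv
  subst hLd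
  obtain ⟨K', hK', hT⟩ := slope h0 h1 hlam hL.1 hS
  obtain ⟨hm, K, hK, hs, -⟩ := hS
  have e1 : up1 ((lb x).join l2) (lB s) = (cv ((lb x).join l2) s.P).dg 1 ⊔ (cv ((lb x).join l2) s.t).dg 1 := by
    rw [cv_dg, cv_dg, ← up1_sup]
    rfl
  have e2 : up1 ((lb x).join l2) (TR.dg (TR.cor s.x y) r) =
      (cv ((lb x).join l2) (TR.vec (fun _ : Fin 1 => TR.cor s.x y))).dg r := by
    rw [cv_dg]
    rfl
  rw [e1, e2, ← cv_dg]
  apply VV.dg_le_of_lt
  intro δ hδ
  obtain ⟨G, hG, hGk⟩ := zvel_ext s (zvel_own s h0 h1 hx z hz δ hδ) (T' := fun k => (((lb x).join l2) k).T)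
    (fun k => ((x k).l.am (l2 k)).p1)
  have hbd := (((cv ((lb x).join l2) (TR.vec (fun _ : Fin 1 => TR.cor s.x y))).bdd r).pair
    (((cv ((lb x).join l2) s.P).bdd 1).pair ((cv ((lb x).join l2) s.t).bdd 1)))
  have hTG : Typ (S := ((lb x).join l2).sp) (fun k (ω : (((lb x).join l2) k).T.Ω) => G k ω) := hG
  have key := (cv ((lb x).join l2) s.x).dg_le_io (r - δ) hbd
    (fun k ω => G k ω ∧ |d1 R {0, y.succ} (v k ω.2) (s.x.v k ((((lb x).join l2) k).p.π ω))| ≤
      K' k * S.dl (lam - c) k) (typ_and hTG hT) (fun k => 2 + 2 * K' k + K k)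
    (by
      have h2 := ((S.Sub_const zero_le_two).add ((S.Sub_const zero_le_two).mul hK')).add hK
      exact chg_sub _ 1 one_pos ((sp_Sub ((lb x).join l2)).mpr h2)) (by
      filter_upwards [hGk, hs, hK'.1, hK.1] with k g1 g2 g3 g4 ω ω' a b hE hE' hZ hX i
      have hd : ∀ r, (((lb x).join l2).ovr 1 one_pos).dl r k = S.dl r k := by
        intro r
        have h3 : (((lb x).join l2).ovr 1 one_pos).dl r k = ((lb x).join l2).sp.dl (1 * r) k :=
          chg_dl ((lb x).join l2).V 1 one_pos r k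
        rw [h3, one_mul, sp_dl]
      have hV : (((lb x).join l2) k).V ω ω' := hZ.1
      have hZ0 : (((lb x).join l2) k).T.Z ω ω' := hZ.2
      rw [Prod.mk.injEq, Prod.mk.injEq] at hX
      obtain ⟨hXy, hXP, hXt⟩ := hX
      have cy := (cv ((lb x).join l2) (TR.vec (fun _ : Fin 1 => TR.cor s.x y))).cellv_close r k ω ω' hXy 0
      have cP : (s.fin k).kP 1 ((((lb x).join l2) k).p.π ω) ((((lb x).join l2) k).p.π ω') := by
        have e3 : (cv ((lb x).join l2) s.P).cellv 1 k ω = s.P.cellv 1 k ((((lb x).join l2) k).p.π ω) := by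
          unfold VV.cellv
          rw [hd]
          rfl
        have e4 : (cv ((lb x).join l2) s.P).cellv 1 k ω' = s.P.cellv 1 k ((((lb x).join l2) k).p.π ω') := by
          unfold VV.cellv
          rw [hd]
          rfl
        rw [e3, e4] at hXP
        exact hXP
      have ct : (s.fin k).kt 1 ((((lb x).join l2) k).p.π ω) ((((lb x).join l2) k).p.π ω') := by
        have e3 : (cv ((lb x).join l2) s.t).cellv 1 k ω = s.t.cellv 1 k ((((lb x).join l2) k).p.π ω) := by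
          unfold VV.cellv
          rw [hd]
          rfl
        have e4 : (cv ((lb x).join l2) s.t).cellv 1 k ω' = s.t.cellv 1 k ((((lb x).join l2) k).p.π ω') := by
          unfold VV.cellv
          rw [hd]
          rfl
        rw [e3, e4] at hXt
        exact hXt
      have hA : (x k).g (((x k).l.am (l2 k)).p1.π ω) = (x k).g (((x k).l.am (l2 k)).p1.π ω') :=
        ((x k).meas _ _ (((x k).l.am (l2 k)).p1.supp ω a) (((x k).l.am (l2 k)).p1.supp ω' b) hV.1
          ((((x k).l.am (l2 k)).p1.hZ ω ω' a b).mp hZ0)).1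
      have hz2 := g1 ω ω' a b hE.1 hE'.1 hA cP ct
      have hvv : v k ω.2 = v k ω'.2 := hm k ω ω' a b hV hZ0
      have q1 := hE.2
      have q2 := hE'.2
      rw [← hvv] at q2
      have hn := (S.F k).pos
      have E2 : (1 : ℝ) ≤ 2 ^ (δ * (S.F k).n) := Real.one_le_rpow (by norm_num) (by positivity)
      have hcy : |s.x.v k ((((lb x).join l2) k).p.π ω) y - s.x.v k ((((lb x).join l2) k).p.π ω') y| ≤ S.dl r k := by
        rw [← hd r]
        exact cy
      have hfin := fin_est hyR hyz hRz g4 g3 (g2 ω a) (S.dl_pos (lam - c) k).le (S.dl_anti hr k) E2 q1 q2 hcy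
        (S.dl_pos (1 - c) k).le (S.dl_anti hr1 k) (by
          refine hz2.trans (le_of_eq ?_)
          have e5 : (2 : ℝ) ^ (2 * (0 + δ) * (S.F k).n) = (2 ^ (δ * (S.F k).n)) ^ 2 := by
            rw [← Real.rpow_natCast, ← Real.rpow_mul (by norm_num)]
            congr 1
            push_cast
            ring
          have e6 : (2 : ℝ) ^ (-(2 * (1 - c) * (S.F k).n)) = S.dl (1 - c) k ^ 2 := by
            unfold Sp.dl
            rw [← Real.rpow_natCast, ← Real.rpow_mul (by norm_num)]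
            congr 1
            push_cast
            ring
          rw [e5, e6]
          rfl) i
      rw [hd]
      refine hfin.trans (le_of_eq ?_)
      have e7 : S.dl (r - δ) k = 2 ^ (δ * (S.F k).n) * S.dl r k := by
        unfold Sp.dl
        rw [← Real.rpow_add (by norm_num)]
        congr 1
        ring
      rw [e7])
  refine key.trans (le_of_eq ?_)
  rw [io_pair ((cv ((lb x).join l2) (TR.vec (fun _ : Fin 1 => TR.cor s.x y))).bdd r)
    (((cv ((lb x).join l2) s.P).bdd 1).pair ((cv ((lb x).join l2) s.t).bdd 1)),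
    io_pair ((cv ((lb x).join l2) s.P).bdd 1) ((cv ((lb x).join l2) s.t).bdd 1)]
  rfl

/-- the richness of a system is the richness of one coordinate of the base -/
theorem h_x_le {y R z : Fin 3} (hyR : y ≠ R) (hyz : y ≠ z) (hRz : R ≠ z) {c lam : ℝ} (h0 : 0 ≤ c) (h1 : c < 1)
    (hlam : lam ≤ 1) (hf : HfE s D (Pi.single z 1) c 1) (hsl : HH (SJ R {0, y.succ}) s c lam) {r : ℝ}
    (hr : r ≤ lam - c) (hr1 : r ≤ 1 - c) : h (s.x.dg r) (lB s) ≤ h (TR.dg (TR.cor s.x y) r) (lB s) := by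
  obtain ⟨x, hx, hx2⟩ := hf
  obtain ⟨l2, v, hl2, hv⟩ := Sht_of_HH hsl
  have hL : DMc s c ((lb x).join l2) := Lab.DM.join (Gau.Ad.dm (gau s D) hx) hl2
  have h3 := up1_x_le hyR hyz hRz h0 h1 hlam hx (Hz_of hx2) hl2 hv hr hr1
  rw [← DMc.h_B hL le_rfl, ← DMc.h_B (x := TR.dg (TR.cor s.x y) r) hL le_rfl]
  refine (h_mono h3).trans (le_of_eq ?_)
  exact h_sup_right_of_le le_rfl

/-- RICHNESS OF THE COORDINATE `y` with constants `g`, `u` -/
def Ryu (s : Sys S 3) (y : Fin 3) (g u : ℝ) : Prop :=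
  ∀ (T : Sp) (p : Pj T S) (E : ∀ k, (T.F k).Ω → Prop) (hE : 0 < ul (T.pr E)) (r : ℝ), 0 ≤ r → r ≤ u →
    g * r ≤ h (restL E hE (p.map (TR.dg (TR.cor s.x y) r))) (restL E hE (p.map (lB s)))

theorem im_cor_h {T : Sp} (p : Pj T S) (E : ∀ k, (T.F k).Ω → Prop) (hE : 0 < ul (T.pr E)) (y : Fin 3) (r : ℝ) :
    h (TR.dg (TR.cor (s.im p E hE).x y) r) (lB (s.im p E hE)) =
      h (restL E hE (p.map (TR.dg (TR.cor s.x y) r))) (restL E hE (p.map (lB s))) := by
  have a1 : (imq p E).map (TR.dg (TR.cor (s.im p E hE).x y) r) = restL E hE (p.map (TR.dg (TR.cor s.x y) r)) :=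
    VV.im_dg p E (TR.vec (fun _ : Fin 1 => TR.cor s.x y)) r hE
  have a2 : (imq p E).map (lB (s.im p E hE)) = restL E hE (p.map (lB s)) := by
    have b1 : (imq p E).map ((s.im p E hE).P.dg 1) = restL E hE (p.map (s.P.dg 1)) := VV.im_dg p E s.P 1 hE
    have b2 : (imq p E).map ((s.im p E hE).t.dg 1) = restL E hE (p.map (s.t.dg 1)) := VV.im_dg p E s.t 1 hE
    unfold lB Sys.T
    rw [Pj.map_sup, Pj.map_sup, b1, b2, restL_sup]
  rw [← a1, ← a2]
  exact ((imq p E).h_map _ _).symm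

/-- ROW B_RY -/
theorem ryu {y R z : Fin 3} (hyR : y ≠ R) (hyz : y ≠ z) (hRz : R ≠ z) {c lam g : ℝ} (h0 : 0 ≤ c) (h1 : c < 1)
    (hlam : lam ≤ 1) (hg : Rich s g) (hf : HfE s D (Pi.single z 1) c 1) (hsl : HH (SJ R {0, y.succ}) s c lam) :
    Ryu s y g (min (lam - c) (1 - c)) := by
  intro T p E hE r hr0 hr
  have r1 : r ≤ lam - c := hr.trans (min_le_left _ _)
  have r2 : r ≤ 1 - c := hr.trans (min_le_right _ _)
  have f1 := (hg.im p E hE).base hr0 (by linarith)
  have f2 := h_x_le hyR hyz hRz h0 h1 hlam (HfE_of_HH (HH_im' (HH_of_HfE hf) p E hE)) (HH_im' hsl p E hE) r1 r2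
  rw [← im_cor_h]
  exact f1.trans f2

end

end Pool.Agent.Helper30.RY
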